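import Mathlib

/-! Sequences with bounded summing functional in a non weakly compact convex set. -/

set_option autoImplicit false

namespace Pool.Agent.V11102.Wide

open NormedSpace Set

variable {X : Type*} [NormedAddCommGroup X] [NormedSpace ℝ X]

variable {Z : Type*} [NormedAddCommGroup Z] [NormedSpace ℝ Z]

theorem step (J : X →ₗᵢ[ℝ] Z) {Φ : Set (StrongDual ℝ Z)} (hΦ1 : ∀ φ ∈ Φ, ‖φ‖ ≤ 1)
    (hΦ : ∀ (v : Z) (η : ℝ), 0 < η → ∃ φ ∈ Φ, ‖v‖ - η < φ v)
    {C : Set X} {M d c : ℝ} (hM : ∀ x ∈ C, ‖x‖ ≤ M) (ξ : Z) (hξ : ‖ξ‖ ≤ M) (hd : 0 < d)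
    (hdist : ∀ x : X, d ≤ ‖ξ - J x‖)
    (happ : ∀ (F : Finset (StrongDual ℝ Z)), (∀ φ ∈ F, φ ∈ Φ) → ∀ (η : ℝ), 0 < η →
      ∃ x ∈ C, ∀ φ ∈ F, |φ (J x) - φ ξ| < η)
    (hc : c < 1) (E : Submodule ℝ Z) [FiniteDimensional ℝ E] :
    ∃ x ∈ C, ∀ y ∈ E, ∀ s : ℝ, c * ‖y + s • ξ‖ ≤ ‖y + s • J x‖ := by
  have hM0 : 0 ≤ M := (norm_nonneg ξ).trans hξ
  have h1c : 0 < 1 - c := by linarith
  set R : ℝ := M + 2 * M / (1 - c) with hR
  set η : ℝ := (1 - c) * d / 4 with hη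
  have hη0 : 0 < η := by positivity
  -- the compact set
  have hK : IsCompact ((fun y : E => (y : Z)) '' Metric.closedBall (0 : E) R) :=
    (isCompact_closedBall (0 : E) R).image continuous_subtype_val
  have hcov : ((fun y : E => (y : Z)) '' Metric.closedBall (0 : E) R) ⊆
      ⋃ φ : Φ, {y | ‖y + ξ‖ - η < φ.1 (y + ξ)} := by
    rintro y -
    rw [mem_iUnion]
    obtain ⟨φ, h1, h2⟩ := hΦ (y + ξ) η hη0
    exact ⟨⟨φ, h1⟩, h2⟩
  obtain ⟨t, ht⟩ := hK.elim_finite_subcover _ (fun f => by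
    apply isOpen_lt
    · fun_prop
    · fun_prop) hcov
  classical
  obtain ⟨x, hxC, hx⟩ := happ (t.image Subtype.val) (by
    intro φ hφ
    obtain ⟨ψ, _, rfl⟩ := Finset.mem_image.mp hφ
    exact ψ.2) η hη0
  refine ⟨x, hxC, ?_⟩
  have hJx : ‖J x‖ ≤ M := by rw [J.norm_map]; exact hM x hxC
  have key : ∀ y ∈ E, c * ‖y + ξ‖ ≤ ‖y + J x‖ := by
    intro y hy
    rcases le_or_gt ‖y + ξ‖ (d / 2) with h | h
    · have h1 := hdist x
      have h2 : ‖ξ - J x‖ ≤ ‖y + ξ‖ + ‖y + J x‖ := by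
        have : ξ - J x = (y + ξ) - (y + J x) := by abel
        rw [this]
        exact norm_sub_le _ _
      have h3 : c * ‖y + ξ‖ ≤ ‖y + ξ‖ := mul_le_of_le_one_left (norm_nonneg _) hc.le
      linarith
    · rcases le_or_gt ‖y‖ R with h2 | h2
      · have h3 : y ∈ ⋃ f ∈ t, {y | ‖y + ξ‖ - η < f.1 (y + ξ)} := by
          apply ht
          refine ⟨⟨y, hy⟩, ?_, rfl⟩
          rw [mem_closedBall_zero_iff]
          exact h2
        rw [mem_iUnion₂] at h3
        obtain ⟨f, hf, hyf⟩ := h3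
        have h4 : ‖y + ξ‖ - η < f.1 (y + ξ) := hyf
        rw [map_add] at h4
        have h5 : |f.1 (J x) - f.1 ξ| < η := hx f.1 (Finset.mem_image_of_mem _ hf)
        have h6 : f.1 y + f.1 (J x) ≤ ‖y + J x‖ := by
          have h7 := f.1.le_opNorm (y + J x)
          rw [map_add] at h7
          refine (le_abs_self _).trans (h7.trans ?_)
          exact mul_le_of_le_one_left (norm_nonneg _) (hΦ1 _ f.2)
        have h9 := (abs_lt.mp h5).1
        have h10 : (1 - c) * (d / 2) ≤ (1 - c) * ‖y + ξ‖ :=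
          mul_le_mul_of_nonneg_left h.le h1c.le
        have h11 : 2 * η = (1 - c) * (d / 2) := by rw [hη]; ring
        linarith
      · have h3 : ‖y‖ ≤ ‖y + ξ‖ + ‖ξ‖ := by
          have : y = (y + ξ) - ξ := by abel
          calc ‖y‖ = ‖(y + ξ) - ξ‖ := by rw [← this]
            _ ≤ _ := norm_sub_le _ _
        have h4 : ‖y + ξ‖ ≤ ‖y + J x‖ + (‖ξ‖ + ‖J x‖) := by
          have : y + ξ = (y + J x) + (ξ - J x) := by abel
          calc ‖y + ξ‖ = ‖(y + J x) + (ξ - J x)‖ := by rw [← this]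
            _ ≤ _ := (norm_add_le _ _).trans (add_le_add le_rfl (norm_sub_le _ _))
        have h5 : 2 * M / (1 - c) ≤ ‖y + ξ‖ := by linarith
        rw [div_le_iff₀ h1c] at h5
        linarith
  intro y hy s
  rcases eq_or_ne s 0 with hs | hs
  · rw [hs, zero_smul, zero_smul, add_zero]
    exact mul_le_of_le_one_left (norm_nonneg _) hc.le
  · have h1 := key (s⁻¹ • y) (E.smul_mem _ hy)
    have h2 : y + s • ξ = s • (s⁻¹ • y + ξ) := by
      rw [smul_add, smul_smul, mul_inv_cancel₀ hs, one_smul]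
    have h3 : y + s • J x = s • (s⁻¹ • y + J x) := by
      rw [smul_add, smul_smul, mul_inv_cancel₀ hs, one_smul]
    rw [h2, h3, norm_smul, norm_smul, mul_left_comm]
    exact mul_le_mul_of_nonneg_left h1 (norm_nonneg _)

/-- the constants -/
noncomputable def be (n : ℕ) : ℝ := 1 / 2 + (1 / 2) ^ (n + 1)

theorem be_pos (n : ℕ) : 0 < be n := by unfold be; positivity

theorem be_ge (n : ℕ) : 1 / 2 ≤ be n := by
  unfold be
  have : (0 : ℝ) ≤ (1 / 2) ^ (n + 1) := by positivity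
  linarith

theorem be_le (n : ℕ) : be n ≤ 1 := by
  unfold be
  have : ((1 : ℝ) / 2) ^ (n + 1) ≤ 1 / 2 := by
    rw [pow_succ]
    have : ((1 : ℝ) / 2) ^ n ≤ 1 := pow_le_one₀ (by norm_num) (by norm_num)
    linarith
  linarith

theorem be_lt (n : ℕ) : be (n + 1) < be n := by
  unfold be
  have : ((1 : ℝ) / 2) ^ (n + 1 + 1) < (1 / 2) ^ (n + 1) := by
    rw [pow_succ _ (n + 1)]
    have : (0 : ℝ) < (1 / 2) ^ (n + 1) := by positivity
    linarith
  linarith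

theorem exists_wide_aux (J : X →ₗᵢ[ℝ] Z) {Φ : Set (StrongDual ℝ Z)} (hΦ1 : ∀ φ ∈ Φ, ‖φ‖ ≤ 1)
    (hΦ : ∀ (v : Z) (η : ℝ), 0 < η → ∃ φ ∈ Φ, ‖v‖ - η < φ v)
    {C : Set X} {M d : ℝ} (hM : ∀ x ∈ C, ‖x‖ ≤ M)
    (ξ : Z) (hξ : ‖ξ‖ ≤ M) (hd : 0 < d) (hdist : ∀ x : X, d ≤ ‖ξ - J x‖)
    (happ : ∀ (F : Finset (StrongDual ℝ Z)), (∀ φ ∈ F, φ ∈ Φ) → ∀ (η : ℝ), 0 < η →
      ∃ x ∈ C, ∀ φ ∈ F, |φ (J x) - φ ξ| < η) :
    ∃ x : ℕ → X, (∀ n, x n ∈ C) ∧ ∀ (t : ℕ → ℝ) (N m : ℕ), m ≤ N →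
      ‖J (∑ n ∈ Finset.range m, t n • x n) +
        (∑ n ∈ Finset.Ico m N, t n) • ξ‖ ≤ 2 * ‖∑ n ∈ Finset.range N, t n • x n‖ := by
  have hst : ∀ (n : ℕ) (E : {E : Submodule ℝ Z //
      FiniteDimensional ℝ E}), ∃ x : X, x ∈ C ∧ ∀ y ∈ E.1, ∀ s : ℝ,
      be (n + 1) / be n * ‖y + s • ξ‖ ≤ ‖y + s • J x‖ := by
    intro n E
    have := E.2
    have hc1 : be (n + 1) / be n < 1 := (div_lt_one (be_pos _)).mpr (be_lt n)
    obtain ⟨x, h1, h2⟩ := step J hΦ1 hΦ hM ξ hξ hd hdist happ hc1 E.1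
    exact ⟨x, h1, h2⟩
  choose g hgC hg using hst
  let Es : ℕ → {E : Submodule ℝ Z // FiniteDimensional ℝ E} :=
    fun n => Nat.rec (motive := fun _ => {E : Submodule ℝ Z //
      FiniteDimensional ℝ E}) ⟨Submodule.span ℝ {ξ}, inferInstance⟩
      (fun n E => ⟨E.1 ⊔ Submodule.span ℝ {J (g n E)}, by
        have := E.2
        infer_instance⟩) n
  let x : ℕ → X := fun n => g n (Es n)
  have hEs : ∀ n, (Es (n + 1)).1 = (Es n).1 ⊔ Submodule.span ℝ {J (x n)} :=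
    fun n => rfl
  have hξE : ∀ n, ξ ∈ (Es n).1 := by
    intro n
    induction n with
    | zero => exact Submodule.mem_span_singleton_self ξ
    | succ n ih => rw [hEs]; exact Submodule.mem_sup_left ih
  have hS : ∀ (t : ℕ → ℝ) n,
      J (∑ k ∈ Finset.range n, t k • x k) ∈ (Es n).1 := by
    intro t n
    induction n with
    | zero => simp
    | succ n ih =>
      rw [Finset.sum_range_succ, map_add, hEs]
      apply Submodule.add_mem
      · exact Submodule.mem_sup_left ih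
      · rw [map_smul]
        exact Submodule.smul_mem _ _ (Submodule.mem_sup_right (Submodule.mem_span_singleton_self _))
  refine ⟨x, fun n => hgC _ _, ?_⟩
  intro t N m hmN
  set A : ℕ → ℝ := fun m => ‖J (∑ n ∈ Finset.range m, t n • x n) +
        (∑ n ∈ Finset.Ico m N, t n) • ξ‖ with hA
  have hstep : ∀ m, m < N → A m / be m ≤ A (m + 1) / be (m + 1) := by
    intro m hm
    have h1 := hg m (Es m) (J (∑ n ∈ Finset.range m, t n • x n) +
        (∑ n ∈ Finset.Ico (m + 1) N, t n) • ξ)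
        (Submodule.add_mem _ (hS t m) (Submodule.smul_mem _ _ (hξE m))) (t m)
    have h2 : J (∑ n ∈ Finset.range m, t n • x n) +
        (∑ n ∈ Finset.Ico (m + 1) N, t n) • ξ + t m • ξ =
        J (∑ n ∈ Finset.range m, t n • x n) +
        (∑ n ∈ Finset.Ico m N, t n) • ξ := by
      rw [Finset.sum_eq_sum_Ico_succ_bot hm, add_smul]; abel
    have h3 : J (∑ n ∈ Finset.range m, t n • x n) +
        (∑ n ∈ Finset.Ico (m + 1) N, t n) • ξ + t m • J (g m (Es m)) =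
        J (∑ n ∈ Finset.range (m + 1), t n • x n) +
        (∑ n ∈ Finset.Ico (m + 1) N, t n) • ξ := by
      rw [Finset.sum_range_succ, map_add, map_smul]
      show _ + _ + t m • J (x m) = _
      abel
    rw [h2, h3] at h1
    have h4 : be (m + 1) / be m * A m ≤ A (m + 1) := h1
    rw [div_le_div_iff₀ (be_pos _) (be_pos _)]
    have h5 : be (m + 1) / be m * A m * be m ≤ A (m + 1) * be m :=
      mul_le_mul_of_nonneg_right h4 (be_pos m).le
    have h6 : be (m + 1) / be m * A m * be m = A m * be (m + 1) := by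
      have := (be_pos m).ne'
      field_simp
    linarith
  have hmono : ∀ k, m + k ≤ N → A m / be m ≤ A (m + k) / be (m + k) := by
    intro k
    induction k with
    | zero => intro _; exact le_rfl
    | succ k ih => intro hk; exact (ih (by omega)).trans (hstep (m + k) (by omega))
  have h1 := hmono (N - m) (by omega)
  rw [show m + (N - m) = N by omega, div_le_div_iff₀ (be_pos _) (be_pos _)] at h1
  have hAN : A N = ‖∑ n ∈ Finset.range N, t n • x n‖ := by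
    show ‖J (∑ n ∈ Finset.range N, t n • x n) +
        (∑ n ∈ Finset.Ico N N, t n) • ξ‖ = _
    rw [Finset.Ico_self, Finset.sum_empty, zero_smul, add_zero]
    exact J.norm_map _
  have hAm : 0 ≤ A m := norm_nonneg _
  have hAN0 : 0 ≤ A N := norm_nonneg _
  show A m ≤ _
  rw [← hAN]
  have h2 : A m * (1 / 2) ≤ A m * be N := mul_le_mul_of_nonneg_left (be_ge N) hAm
  have h3 : A N * be m ≤ A N * 1 := mul_le_mul_of_nonneg_left (be_le m) hAN0
  linarith

theorem exists_wide_of (J : X →ₗᵢ[ℝ] Z) {Φ : Set (StrongDual ℝ Z)} (hΦ1 : ∀ φ ∈ Φ, ‖φ‖ ≤ 1)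
    (hΦ : ∀ (v : Z) (η : ℝ), 0 < η → ∃ φ ∈ Φ, ‖v‖ - η < φ v)
    {C : Set X} {M d : ℝ} (hM : ∀ x ∈ C, ‖x‖ ≤ M)
    (ξ : Z) (hξ : ‖ξ‖ ≤ M) (hd : 0 < d) (hdist : ∀ x : X, d ≤ ‖ξ - J x‖)
    (happ : ∀ (F : Finset (StrongDual ℝ Z)), (∀ φ ∈ F, φ ∈ Φ) → ∀ (η : ℝ), 0 < η →
      ∃ x ∈ C, ∀ φ ∈ F, |φ (J x) - φ ξ| < η) :
    ∃ x : ℕ → X, (∀ n, x n ∈ C) ∧ ∃ D : ℝ, 0 ≤ D ∧ ∀ (t : ℕ → ℝ) (N m : ℕ), m ≤ N →
      |∑ n ∈ Finset.Ico m N, t n| ≤ D * ‖∑ n ∈ Finset.range N, t n • x n‖ ∧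
      ‖∑ n ∈ Finset.range m, t n • x n‖ ≤ D * ‖∑ n ∈ Finset.range N, t n • x n‖ := by
  obtain ⟨x, hxC, hx⟩ := exists_wide_aux J hΦ1 hΦ hM ξ hξ hd hdist happ
  have hM0 : 0 ≤ M := (norm_nonneg ξ).trans hξ
  refine ⟨x, hxC, 2 + 2 / d + 2 / d * M, by positivity, ?_⟩
  intro t N m hm
  have h1 := hx t N m hm
  set a := ∑ n ∈ Finset.range m, t n • x n
  set s := ∑ n ∈ Finset.Ico m N, t n
  set b := ‖∑ n ∈ Finset.range N, t n • x n‖
  have hb : 0 ≤ b := norm_nonneg _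
  have h2 : |s| * d ≤ ‖J a + s • ξ‖ := by
    rcases eq_or_ne s 0 with hs | hs
    · rw [hs, abs_zero, zero_mul]; exact norm_nonneg _
    · have h3 : J a + s • ξ =
          s • (ξ - J (-(s⁻¹ • a))) := by
        rw [map_neg, map_smul, sub_neg_eq_add, smul_add, smul_smul, mul_inv_cancel₀ hs, one_smul,
          add_comm]
      rw [h3, norm_smul, Real.norm_eq_abs]
      exact mul_le_mul_of_nonneg_left (hdist _) (abs_nonneg _)
  have h3 : |s| ≤ 2 / d * b := by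
    have : |s| * d ≤ 2 * b := h2.trans h1
    rw [div_mul_eq_mul_div, le_div_iff₀ hd]
    exact this
  have hd2 : 0 ≤ 2 / d := by positivity
  constructor
  · have : 0 ≤ (2 + 2 / d * M) * b := by positivity
    linarith
  · have h4 : ‖a‖ ≤ ‖J a + s • ξ‖ + |s| * M := by
      have h5 : ‖a‖ = ‖J a‖ :=
        (J.norm_map a).symm
      have h6 : J a = (J a + s • ξ) - s • ξ := by
        abel
      rw [h5]
      calc ‖J a‖ = ‖(J a + s • ξ) - s • ξ‖ := by
            rw [← h6]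
        _ ≤ ‖J a + s • ξ‖ + ‖s • ξ‖ := norm_sub_le _ _
        _ ≤ _ := by
          rw [norm_smul, Real.norm_eq_abs]
          have := mul_le_mul_of_nonneg_left hξ (abs_nonneg s)
          linarith
    have h7 : |s| * M ≤ 2 / d * b * M := mul_le_mul_of_nonneg_right h3 hM0
    have h8 : 0 ≤ 2 / d * b := by positivity
    linarith

theorem exists_dist [CompleteSpace X] (J : X →ₗᵢ[ℝ] Z) {ξ : Z} (h : ∀ x, J x ≠ ξ) :
    ∃ d : ℝ, 0 < d ∧ ∀ x : X, d ≤ ‖ξ - J x‖ := by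
  have h : ξ ∉ Set.range J := by
    rintro ⟨x, hx⟩
    exact h x hx
  have hrange : IsClosed (Set.range J) := J.isometry.isClosedEmbedding.isClosed_range
  obtain ⟨d, hd, hball⟩ := Metric.isOpen_iff.mp hrange.isOpen_compl ξ h
  refine ⟨d, hd, fun x => ?_⟩
  by_contra h
  push Not at h
  have : J x ∈ Metric.ball ξ d := by
    rw [Metric.mem_ball, dist_comm, dist_eq_norm]
    exact h
  exact hball this ⟨x, rfl⟩

/-- A bounded closed convex set that is not weakly compact contains a basic sequence on which the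
summing functional is bounded. -/
theorem exists_wide [CompleteSpace X] {C : Set X} {M : ℝ} (hM : ∀ x ∈ C, ‖x‖ ≤ M)
    (hcl : IsClosed C) (hconv : Convex ℝ C) (hnw : ¬ IsCompact (toWeakSpace ℝ X '' C)) :
    ∃ x : ℕ → X, (∀ n, x n ∈ C) ∧ ∃ D : ℝ, 0 ≤ D ∧ ∀ (t : ℕ → ℝ) (N m : ℕ), m ≤ N →
      |∑ n ∈ Finset.Ico m N, t n| ≤ D * ‖∑ n ∈ Finset.range N, t n • x n‖ ∧
      ‖∑ n ∈ Finset.range m, t n • x n‖ ≤ D * ‖∑ n ∈ Finset.range N, t n • x n‖ := by
  have hb : Bornology.IsBounded C := isBounded_iff_forall_norm_le.mpr ⟨M, hM⟩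
  have h1 : closure (toWeakSpace ℝ X '' C) = toWeakSpace ℝ X '' C := by
    rw [← hconv.toWeakSpace_closure ℝ, hcl.closure_eq]
  have h2 : ¬ (closure (inclusionInDoubleDualWeak ℝ X '' (toWeakSpace ℝ X '' C)) ⊆
      Set.range (inclusionInDoubleDualWeak ℝ X)) := by
    intro h
    apply hnw
    rw [← h1]
    apply isCompact_closure_of_isBounded ℝ X _ _ h
    rw [Set.preimage_image_eq _ (toWeakSpace ℝ X).injective]
    exact hb
  rw [Set.not_subset] at h2
  obtain ⟨ζ, hζ, hζr⟩ := h2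
  let ξ : StrongDual ℝ (StrongDual ℝ X) := WeakDual.toStrongDual ζ
  -- finite approximation
  have happ : ∀ (F : Finset (StrongDual ℝ X)) (η : ℝ), 0 < η →
      ∃ x ∈ C, ∀ f ∈ F, |f x - ξ f| < η := by
    intro F η hη
    have hopen : IsOpen {w : WeakDual ℝ (StrongDual ℝ X) | ∀ f ∈ F, |w f - ξ f| < η} := by
      have : {w : WeakDual ℝ (StrongDual ℝ X) | ∀ f ∈ F, |w f - ξ f| < η} =
          ⋂ f ∈ F, {w : WeakDual ℝ (StrongDual ℝ X) | |w f - ξ f| < η} := by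
        ext w; simp
      rw [this]
      apply isOpen_biInter_finset
      intro f _
      apply isOpen_lt _ continuous_const
      exact ((WeakDual.eval_continuous f).sub continuous_const).abs
    have hmem : ζ ∈ {w : WeakDual ℝ (StrongDual ℝ X) | ∀ f ∈ F, |w f - ξ f| < η} := by
      intro f _
      show |ξ f - ξ f| < η
      rw [sub_self, abs_zero]
      exact hη
    obtain ⟨w, hw, hwC⟩ := mem_closure_iff.mp hζ _ hopen hmem
    obtain ⟨_, ⟨x, hx, rfl⟩, rfl⟩ := hwC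
    exact ⟨x, hx, hw⟩
  -- norm of ξ
  have hC : C.Nonempty := by
    obtain ⟨x, hx, _⟩ := happ ∅ 1 one_pos
    exact ⟨x, hx⟩
  have hM0 : 0 ≤ M := by
    obtain ⟨x, hx⟩ := hC
    exact (norm_nonneg x).trans (hM x hx)
  have hξ : ‖ξ‖ ≤ M := by
    apply ContinuousLinearMap.opNorm_le_bound _ hM0
    intro f
    apply le_of_forall_pos_le_add
    intro η hη
    obtain ⟨x, hx, hf⟩ := happ {f} η hη
    have h3 := hf f (Finset.mem_singleton_self f)
    have h4 : ‖f x‖ ≤ M * ‖f‖ := by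
      refine (f.le_opNorm x).trans ?_
      rw [mul_comm]
      exact mul_le_mul_of_nonneg_right (hM x hx) (norm_nonneg f)
    rw [Real.norm_eq_abs] at h4 ⊢
    have h5 : |ξ f| ≤ |f x| + |f x - ξ f| := by
      have : ξ f = f x - (f x - ξ f) := by ring
      calc |ξ f| = |f x - (f x - ξ f)| := by rw [← this]
        _ ≤ _ := abs_sub _ _
    linarith
  -- distance
  have hnr : ∀ x, inclusionInDoubleDualLi (E := X) ℝ x ≠ ξ := by
    intro x hx
    apply hζr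
    refine ⟨toWeakSpace ℝ X x, ?_⟩
    apply WeakDual.toStrongDual.injective
    exact hx
  obtain ⟨d, hd, hdist⟩ := exists_dist (Z := StrongDual ℝ (StrongDual ℝ X))
    (inclusionInDoubleDualLi (E := X) ℝ) (ξ := ξ) hnr
  let ev : StrongDual ℝ X → StrongDual ℝ (StrongDual ℝ (StrongDual ℝ X)) := fun f =>
    inclusionInDoubleDual ℝ (StrongDual ℝ X) f
  have hmain := exists_wide_of (Z := StrongDual ℝ (StrongDual ℝ X))
    (inclusionInDoubleDualLi (E := X) ℝ) (Φ := {φ | ∃ f, ‖f‖ ≤ 1 ∧ φ = ev f})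
    (C := C) (M := M) (d := d)
  refine hmain ?_ ?_ hM ξ hξ hd hdist ?_
  · rintro _ ⟨f, hf, rfl⟩
    exact (double_dual_bound ℝ _ f).trans hf
  · intro v η hη
    rcases lt_or_ge ‖v‖ η with h | h
    · refine ⟨ev 0, ⟨0, by simp, rfl⟩, ?_⟩
      show ‖v‖ - η < v 0
      rw [map_zero]
      linarith
    · obtain ⟨f, hf1, hf2⟩ := v.exists_lt_apply_of_lt_opNorm
        (show ‖v‖ - η < ‖v‖ by linarith)
      rcases le_or_gt 0 (v f) with h0 | h0
      · refine ⟨ev f, ⟨f, hf1.le, rfl⟩, ?_⟩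
        rw [Real.norm_eq_abs, abs_of_nonneg h0] at hf2
        exact hf2
      · refine ⟨ev (-f), ⟨-f, by rw [norm_neg]; exact hf1.le, rfl⟩, ?_⟩
        rw [Real.norm_eq_abs, abs_of_neg h0] at hf2
        show ‖v‖ - η < v (-f)
        rw [map_neg]
        exact hf2
  · intro F hF η hη
    choose! fs _ hfs using hF
    classical
    obtain ⟨x, hx, hx2⟩ := happ (F.image fs) η hη
    refine ⟨x, hx, fun φ hφ => ?_⟩
    have h3 := hx2 (fs φ) (Finset.mem_image_of_mem _ hφ)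
    rw [hfs φ hφ]
    exact h3

end Pool.Agent.V11102.Wide
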