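import Mathlib
import Pool.Agent.V11102.Wide.Seq

/-! The averaged operator on a wide sequence. -/

set_option autoImplicit false

namespace Pool.Agent.V11102.Wide

open Set

variable {X : Type*} [NormedAddCommGroup X] [NormedSpace ℝ X]

/-- Hahn–Banach for sequences. -/
theorem exists_functional (x : ℕ → X) (φ : (ℕ →₀ ℝ) →ₗ[ℝ] ℝ) (C : ℝ)
    (h : ∀ t, |φ t| ≤ C * ‖Finsupp.linearCombination ℝ x t‖) :
    ∃ g : StrongDual ℝ X, ∀ n, g (x n) = φ (Finsupp.single n 1) := by
  let T := Finsupp.linearCombination ℝ x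
  obtain ⟨r, hr⟩ := T.rangeRestrict.exists_rightInverse_of_surjective T.range_rangeRestrict
  have hr' : ∀ y : LinearMap.range T, T (r y) = y := by
    intro y
    have := LinearMap.congr_fun hr y
    exact congrArg Subtype.val this
  have hC : ∀ y : LinearMap.range T, ‖(φ.comp r) y‖ ≤ C * ‖y‖ := by
    intro y
    have h1 := h (r y)
    have h2 : Finsupp.linearCombination ℝ x (r y) = y := hr' y
    rw [h2] at h1
    exact h1
  let ψ : StrongDual ℝ (LinearMap.range T) := (φ.comp r).mkContinuous C hC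
  obtain ⟨g, hg, -⟩ := exists_extension_norm_eq (LinearMap.range T) ψ
  refine ⟨g, fun n => ?_⟩
  have hx : T (Finsupp.single n 1) = x n := by
    show Finsupp.linearCombination ℝ x (Finsupp.single n 1) = x n
    rw [Finsupp.linearCombination_single, one_smul]
  have h1 := hg ⟨T (Finsupp.single n 1), LinearMap.mem_range_self _ _⟩
  have h2 : g (x n) = φ (r ⟨T (Finsupp.single n 1), LinearMap.mem_range_self _ _⟩) := by
    rw [← hx]; exact h1
  rw [h2]
  set u := r ⟨T (Finsupp.single n 1), LinearMap.mem_range_self _ _⟩ with hu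
  have h3 : T (u - Finsupp.single n 1) = 0 := by
    rw [map_sub, hu, hr', sub_self]
  have h4 := h (u - Finsupp.single n 1)
  have h5 : Finsupp.linearCombination ℝ x (u - Finsupp.single n 1) = 0 := h3
  rw [h5, norm_zero, mul_zero, map_sub] at h4
  have h6 := abs_nonpos_iff.mp h4
  linarith

/-- A wide sequence. -/
structure IsWide (x : ℕ → X) (D : ℝ) : Prop where
  nonneg : 0 ≤ D
  sum_le : ∀ (t : ℕ → ℝ) (N m : ℕ), m ≤ N →
    |∑ n ∈ Finset.Ico m N, t n| ≤ D * ‖∑ n ∈ Finset.range N, t n • x n‖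
  proj_le : ∀ (t : ℕ → ℝ) (N m : ℕ), m ≤ N →
    ‖∑ n ∈ Finset.range m, t n • x n‖ ≤ D * ‖∑ n ∈ Finset.range N, t n • x n‖

theorem lc_eq (x : ℕ → X) (t : ℕ →₀ ℝ) (m : ℕ) : ∃ N, m ≤ N ∧
    Finsupp.linearCombination ℝ x t = ∑ n ∈ Finset.range N, t n • x n ∧
    (∀ n, N ≤ n → t n = 0) := by
  obtain ⟨N, hN⟩ := t.support.exists_nat_subset_range
  refine ⟨max N m, le_max_right _ _, ?_, ?_⟩
  · rw [Finsupp.linearCombination_apply, Finsupp.sum]
    apply Finset.sum_subset
    · intro n hn
      have := hN hn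
      rw [Finset.mem_range] at this ⊢
      exact lt_of_lt_of_le this (le_max_left _ _)
    · intro n _ hn
      rw [Finsupp.notMem_support_iff.mp hn, zero_smul]
  · intro n hn
    by_contra h
    have := hN (Finsupp.mem_support_iff.mpr h)
    rw [Finset.mem_range] at this
    exact absurd this (not_lt.mpr ((le_max_left _ _).trans hn))

theorem IsWide.coord {x : ℕ → X} {D : ℝ} (h : IsWide x D) (i : ℕ) :
    ∃ g : StrongDual ℝ X, ∀ n, g (x n) = if n = i then 1 else 0 := by
  obtain ⟨g, hg⟩ := exists_functional x (Finsupp.lapply i) (2 * D) (by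
    intro t
    obtain ⟨N, hN, h1, h2⟩ := lc_eq x t (i + 1)
    rw [h1]
    have h3 := h.sum_le t N i (by omega)
    have h4 := h.sum_le t N (i + 1) hN
    have h5 : t i = ∑ n ∈ Finset.Ico i N, t n - ∑ n ∈ Finset.Ico (i + 1) N, t n := by
      rw [Finset.sum_eq_sum_Ico_succ_bot (show i < N by omega)]; ring
    show |t i| ≤ _
    rw [h5]
    exact (abs_sub _ _).trans (by linarith))
  refine ⟨g, fun n => ?_⟩
  rw [hg, Finsupp.lapply_apply, Finsupp.single_apply]

theorem IsWide.total {x : ℕ → X} {D : ℝ} (h : IsWide x D) :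
    ∃ g : StrongDual ℝ X, ∀ n, g (x n) = 1 := by
  obtain ⟨g, hg⟩ := exists_functional x (Finsupp.linearCombination ℝ fun _ => (1 : ℝ)) D (by
    intro t
    obtain ⟨N, hN, h1, h2⟩ := lc_eq x t 0
    rw [h1]
    have h3 := h.sum_le t N 0 hN
    have h5 : Finsupp.linearCombination ℝ (fun _ => (1 : ℝ)) t = ∑ n ∈ Finset.Ico 0 N, t n := by
      rw [Finsupp.linearCombination_apply, Finsupp.sum]
      simp only [smul_eq_mul, mul_one]
      apply Finset.sum_subset
      · intro n hn
        rw [Finset.mem_Ico]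
        refine ⟨Nat.zero_le _, ?_⟩
        by_contra h6
        push Not at h6
        exact Finsupp.mem_support_iff.mp hn (h2 n h6)
      · intro n _ hn
        exact Finsupp.notMem_support_iff.mp hn
    rw [h5]
    exact h3)
  refine ⟨g, fun n => ?_⟩
  rw [hg, Finsupp.linearCombination_single, smul_eq_mul, one_mul]

/-- collapse of the first `m` vectors to the next one -/
noncomputable def Q (x : ℕ → X) (e : ℕ → StrongDual ℝ X) (m : ℕ) : X →L[ℝ] X :=
  ContinuousLinearMap.id ℝ X + ∑ i ∈ Finset.range m, (e i).smulRight (x m - x i)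

/-- the partial sum projections -/
noncomputable def Pr (x : ℕ → X) (e : ℕ → StrongDual ℝ X) (m : ℕ) : X →L[ℝ] X :=
  ∑ i ∈ Finset.range m, (e i).smulRight (x i)

section
variable {x : ℕ → X} {e : ℕ → StrongDual ℝ X} (he : ∀ i n, e i (x n) = if n = i then 1 else 0)
include he

theorem Q_apply_x (m n : ℕ) : Q x e m (x n) = x (max m n) := by
  unfold Q
  rw [add_apply, sum_apply]
  simp only [ContinuousLinearMap.id_apply, ContinuousLinearMap.smulRight_apply, he, ite_smul,
    one_smul, zero_smul]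
  rcases lt_or_ge n m with h | h
  · rw [Finset.sum_ite_eq, if_pos (Finset.mem_range.mpr h), max_eq_left h.le]
    abel
  · rw [Finset.sum_ite_eq, if_neg (fun h' => absurd (Finset.mem_range.mp h') (not_lt.mpr h)),
      max_eq_right h, add_zero]

theorem Pr_apply_x (m n : ℕ) : Pr x e m (x n) = if n < m then x n else 0 := by
  unfold Pr
  rw [sum_apply]
  simp only [ContinuousLinearMap.smulRight_apply, he, ite_smul, one_smul, zero_smul]
  rw [Finset.sum_ite_eq]
  simp only [Finset.mem_range]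

theorem Q_comp (m k : ℕ) {z : X} (hz : z ∈ closure (Submodule.span ℝ (range x) : Set X)) :
    Q x e m (Q x e k z) = Q x e (max m k) z := by
  have h : EqOn ((Q x e m).comp (Q x e k)) (Q x e (max m k)) (range x) := by
    rintro _ ⟨n, rfl⟩
    show Q x e m (Q x e k (x n)) = _
    rw [Q_apply_x he, Q_apply_x he, Q_apply_x he, max_assoc]
  exact ContinuousLinearMap.eqOn_closure_span h hz

theorem eQ (i m : ℕ) {z : X} (hz : z ∈ closure (Submodule.span ℝ (range x) : Set X))
    (h0 : ∀ n < i, e n z = 0) : e i (Q x e m z) = if m ≤ i then e i z else 0 := by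
  rcases lt_trichotomy m i with hmi | hmi | hmi
  · have h : EqOn ((e i).comp (Q x e m)) (e i) (range x) := by
      rintro _ ⟨n, rfl⟩
      show e i (Q x e m (x n)) = _
      rw [Q_apply_x he, he, he]
      split_ifs <;> first | rfl | omega
    rw [if_pos hmi.le]
    exact ContinuousLinearMap.eqOn_closure_span h hz
  · subst hmi
    have h : EqOn ((e m).comp (Q x e m)) (∑ n ∈ Finset.range (m + 1), e n : StrongDual ℝ X)
        (range x) := by
      rintro _ ⟨n, rfl⟩
      show e m (Q x e m (x n)) = _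
      rw [Q_apply_x he, he, sum_apply]
      simp only [he]
      rw [Finset.sum_ite_eq]
      simp only [Finset.mem_range]
      split_ifs <;> first | rfl | omega
    rw [if_pos le_rfl]
    have h1 : e m (Q x e m z) = (∑ n ∈ Finset.range (m + 1), e n : StrongDual ℝ X) z :=
      ContinuousLinearMap.eqOn_closure_span h hz
    rw [h1, sum_apply, Finset.sum_range_succ, Finset.sum_eq_zero, zero_add]
    intro n hn
    exact h0 n (Finset.mem_range.mp hn)
  · have h : EqOn ((e i).comp (Q x e m)) (0 : StrongDual ℝ X) (range x) := by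
      rintro _ ⟨n, rfl⟩
      show e i (Q x e m (x n)) = 0
      rw [Q_apply_x he, he, if_neg (by omega)]
    rw [if_neg (not_le.mpr hmi)]
    exact ContinuousLinearMap.eqOn_closure_span h hz

theorem Pr_bound {D : ℝ} (hw : IsWide x D) (m : ℕ) {z : X}
    (hz : z ∈ closure (Submodule.span ℝ (range x) : Set X)) : ‖Pr x e m z‖ ≤ D * ‖z‖ := by
  have hcl : IsClosed {z : X | ‖Pr x e m z‖ ≤ D * ‖z‖} :=
    isClosed_le (by fun_prop) (by fun_prop)
  refine closure_minimal ?_ hcl hz
  intro z hz
  obtain ⟨t, rfl⟩ := Finsupp.mem_span_range_iff_exists_finsupp.mp hz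
  rw [← Finsupp.linearCombination_apply]
  obtain ⟨N, hN, h1, h2⟩ := lc_eq x t m
  show ‖Pr x e m (Finsupp.linearCombination ℝ x t)‖ ≤ D * ‖Finsupp.linearCombination ℝ x t‖
  rw [h1]
  have h3 : Pr x e m (∑ n ∈ Finset.range N, t n • x n) = ∑ n ∈ Finset.range m, t n • x n := by
    rw [map_sum]
    simp only [map_smul, Pr_apply_x he, smul_ite, smul_zero]
    rw [← Finset.sum_filter]
    congr 1
    ext n
    simp only [Finset.mem_filter, Finset.mem_range]
    omega
  rw [h3]
  exact hw.proj_le t N m hN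

theorem Q_bound {D M : ℝ} (hw : IsWide x D) (hM : ∀ n, ‖x n‖ ≤ M) (m : ℕ) {z : X}
    (hz : z ∈ closure (Submodule.span ℝ (range x) : Set X)) :
    ‖Q x e m z‖ ≤ (2 * D * M + 1 + D) * ‖z‖ := by
  have hM0 : 0 ≤ M := (norm_nonneg _).trans (hM 0)
  have hcl : IsClosed {z : X | ‖Q x e m z‖ ≤ (2 * D * M + 1 + D) * ‖z‖} :=
    isClosed_le (by fun_prop) (by fun_prop)
  refine closure_minimal ?_ hcl hz
  intro z hz
  obtain ⟨t, rfl⟩ := Finsupp.mem_span_range_iff_exists_finsupp.mp hz
  rw [← Finsupp.linearCombination_apply]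
  obtain ⟨N, hN, h1, h2⟩ := lc_eq x t m
  show ‖Q x e m (Finsupp.linearCombination ℝ x t)‖ ≤
    (2 * D * M + 1 + D) * ‖Finsupp.linearCombination ℝ x t‖
  rw [h1]
  set z := ∑ n ∈ Finset.range N, t n • x n with hzdef
  have h3 : Q x e m z = (∑ n ∈ Finset.range m, t n) • x m + z -
      ∑ n ∈ Finset.range m, t n • x n := by
    have h4 : z = ∑ n ∈ Finset.range m, t n • x n + ∑ n ∈ Finset.Ico m N, t n • x n := by
      rw [hzdef, Finset.sum_range_add_sum_Ico _ hN]
    rw [h4, map_add, map_sum, map_sum]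
    have h5 : ∑ n ∈ Finset.range m, Q x e m (t n • x n) = (∑ n ∈ Finset.range m, t n) • x m := by
      rw [Finset.sum_smul]
      apply Finset.sum_congr rfl
      intro n hn
      rw [map_smul, Q_apply_x he, max_eq_left (Finset.mem_range.mp hn).le]
    have h6 : ∑ n ∈ Finset.Ico m N, Q x e m (t n • x n) = ∑ n ∈ Finset.Ico m N, t n • x n := by
      apply Finset.sum_congr rfl
      intro n hn
      rw [map_smul, Q_apply_x he, max_eq_right (Finset.mem_Ico.mp hn).1]
    rw [h5, h6]
    abel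
  have h4 : |∑ n ∈ Finset.range m, t n| ≤ 2 * D * ‖z‖ := by
    have h5 := hw.sum_le t N 0 (Nat.zero_le _)
    have h6 := hw.sum_le t N m hN
    have h7 : ∑ n ∈ Finset.range m, t n =
        ∑ n ∈ Finset.Ico 0 N, t n - ∑ n ∈ Finset.Ico m N, t n := by
      rw [← Finset.range_eq_Ico, ← Finset.sum_range_add_sum_Ico _ hN]; ring
    rw [h7]
    refine (abs_sub _ _).trans ?_
    rw [← hzdef] at h5 h6
    linarith
  have h5 := hw.proj_le t N m hN
  rw [← hzdef] at h5
  rw [h3]
  calc ‖(∑ n ∈ Finset.range m, t n) • x m + z - ∑ n ∈ Finset.range m, t n • x n‖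
      ≤ ‖(∑ n ∈ Finset.range m, t n) • x m + z‖ + ‖∑ n ∈ Finset.range m, t n • x n‖ :=
        norm_sub_le _ _
    _ ≤ (‖(∑ n ∈ Finset.range m, t n) • x m‖ + ‖z‖) + D * ‖z‖ :=
        add_le_add (norm_add_le _ _) h5
    _ ≤ (2 * D * ‖z‖ * M + ‖z‖) + D * ‖z‖ := by
        have h8 : ‖(∑ n ∈ Finset.range m, t n) • x m‖ ≤ 2 * D * ‖z‖ * M := by
          rw [norm_smul, Real.norm_eq_abs]
          have := hw.nonneg
          exact mul_le_mul h4 (hM m) (norm_nonneg _) (by positivity)
        linarith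
    _ = (2 * D * M + 1 + D) * ‖z‖ := by ring

theorem eq_zero_of_coord {D : ℝ} (hw : IsWide x D) {z : X}
    (hz : z ∈ closure (Submodule.span ℝ (range x) : Set X)) (h : ∀ i, e i z = 0) : z = 0 := by
  have hD := hw.nonneg
  rw [← norm_le_zero_iff]
  apply le_of_forall_pos_le_add
  intro ε hε
  obtain ⟨w, hw1, hw2⟩ := Metric.mem_closure_iff.mp hz (ε / (D + 1)) (by positivity)
  obtain ⟨t, rfl⟩ := Finsupp.mem_span_range_iff_exists_finsupp.mp hw1
  rw [← Finsupp.linearCombination_apply] at hw2 hw1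
  obtain ⟨N, -, h1, h2⟩ := lc_eq x t 0
  have h3 : Pr x e N (Finsupp.linearCombination ℝ x t) = Finsupp.linearCombination ℝ x t := by
    rw [h1, map_sum]
    apply Finset.sum_congr rfl
    intro n hn
    rw [map_smul, Pr_apply_x he, if_pos (Finset.mem_range.mp hn)]
  have h4 : Pr x e N z = 0 := by
    unfold Pr
    rw [sum_apply]
    simp only [ContinuousLinearMap.smulRight_apply, h, zero_smul, Finset.sum_const_zero]
  set w := Finsupp.linearCombination ℝ x t with hwdef
  have h5 : w - z ∈ closure (Submodule.span ℝ (range x) : Set X) := by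
    have : w - z ∈ (Submodule.span ℝ (range x)).topologicalClosure :=
      Submodule.sub_mem _ (subset_closure hw1) hz
    exact this
  have h6 := Pr_bound he hw N h5
  rw [map_sub, h3, h4, sub_zero] at h6
  rw [dist_comm, dist_eq_norm] at hw2
  have h7 : ‖z‖ ≤ ‖w‖ + ‖w - z‖ := by
    have : z = w - (w - z) := by abel
    calc ‖z‖ = ‖w - (w - z)‖ := by rw [← this]
      _ ≤ _ := norm_sub_le _ _
  have h8 : (D + 1) * ‖w - z‖ ≤ ε := by
    have := (lt_div_iff₀ (show 0 < D + 1 by positivity)).mp hw2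
    linarith
  linarith

end

end Pool.Agent.V11102.Wide
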